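import Pool.Agent.N154.TB.AGeo

/-!
Entire curves in projective varieties, possibly singular, with a map to an abelian variety with
hyperbolic fibres: if the 2-forms are positive in the directions of the abelian variety, outside a
hyperbolic closed subset, then all entire curves lie on finitely many elliptic curves.
-/

set_option autoImplicit false

open FF LinearAlgebra.Projectivization Pool.Agent.W602.GT Pool.Agent.N154.TB
open Pool.Agent.N154.TT (RiemannForm HolToTorus)

/-- Let `X = {F = 0}` be a projective algebraic set with arbitrary singularities, `S = {G = 0}` a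
closed subset of `X` which contains the points where `X` is not a manifold of dimension `d` and in
which every holomorphic map `ℂ → S` is constant (`S` may be empty if `X` is a manifold), and
`α : X → ℂᵐ / Λ` a holomorphic map to an abelian variety (a complex torus with a Riemann form `H`)
of any dimension `m`, whose fibres are Brody hyperbolic. Assume that the 2-forms of `X` are positive
outside `S` in the directions of the abelian variety: for `x` in `X - S` and linearly independent
tangent vectors `v`, `w` at `x`, where `v` is not tangent to the fibre of `α`, some `η q x v w` is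
not zero, where the `η q` are holomorphic functions of points of `X` and pairs of tangent vectors,
twisted by `O (-1)`, or not twisted and zero over a subset of the abelian variety which meets all
lines (see `TwoForms`).

Then there is a finite set `T` of nonconstant holomorphic maps `g` from elliptic curves `ℂ / L` to
`X` (`α ∘ g` is a nonconstant affine map) such that every nonconstant holomorphic map `f : ℂ → X` is
the composition of one of the maps `g` in `T` with an entire function `s`. In particular, the
question Q1 has a positive answer for `X`: if every holomorphic map from an elliptic curve to `X` is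
constant, then every holomorphic map `ℂ → X` is constant. If `X` is irreducible of dimension at
least 2, with generic point `y`, then some form which is not zero on `X` vanishes on all the
nonconstant entire curves. -/
theorem Pool.Agent.Results.MP_b9fedf_ag.SingularOverAbelian.result {n d m : ℕ} {ι ι' : Type}
    (F : ι → MvPolynomial (Fin (n + 1)) ℂ) (hF : ∀ i, IsForm (F i))
    (G : ι' → MvPolynomial (Fin (n + 1)) ℂ) (hG : ∀ j, IsForm (G j))
    (hS : BrodyHyp (Cone F ∩ Zeros G)) (Λ : Submodule ℤ (Fin m → ℂ)) [DiscreteTopology Λ]
    [IsZLattice ℝ Λ] (H : (Fin m → ℂ) → (Fin m → ℂ) → ℂ) (hH : RiemannForm Λ H)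
    (α : (Fin (n + 1) → ℂ) → (Fin m → ℂ) ⧸ Λ) (hα : HolToTorus (Cone F) Λ α)
    (hfib : HypFibres (Cone F) α) {κ : Type} (k : κ → ℕ)
    (η : κ → (Fin (n + 1) → ℂ) → (Fin (n + 1) → ℂ) → (Fin (n + 1) → ℂ) → ℂ)
    (hη : TwoForms (Cone F) (Zeros G) d α k η) :
    (∃ T : Set (ℂ → ℙ ℂ (Fin (n + 1) → ℂ)), T.Finite ∧
      (∀ g ∈ T, CurveIn (Cone F) g ∧ Elliptic g ∧ OverLine α g) ∧
      ∀ f, CurveIn (Cone F) f → IsConst f ∨ Factors T f) ∧
    ((∀ g, CurveIn (Cone F) g → Elliptic g → IsConst g) → BrodyHyp (Cone F)) ∧
    (∀ (K : Type) [Field K] [Algebra ℂ K] (w : ℕ) (y : Fin (n + 1) → K), 2 ≤ w →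
      SubVar F K w y → Cone F ⊆ VarPts ℂ y → ∃ P : MvPolynomial (Fin (n + 1)) ℂ, IsForm P ∧
        val y P ≠ 0 ∧ ∀ f, CurveIn (Cone F) f → IsConst f ∨ ∀ z, val (f z).rep P = 0) := by
  obtain ⟨T, h1, h2, h3, -, -, -, h4⟩ := abel_geo hF hG hS hη hH hα hfib
  refine ⟨⟨T, h1, h2, h3⟩, fun hell f hf => ?_, fun K _ _ w y hw hsub hirr => ?_⟩
  · rcases h3 f hf with h5 | ⟨g, hg, s, -, hs⟩
    · exact h5
    · obtain ⟨hgc, hge, -⟩ := h2 g hg
      intro z w
      rw [hs z, hs w]
      exact hell g hgc hge _ _
  · obtain ⟨P, hP1, hP2, hP3⟩ := h4 K w y hw hsub hirr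
    refine ⟨P, hP1, hP2, fun f hf => ?_⟩
    rcases h3 f hf with h5 | ⟨g, hg, s, -, hs⟩
    · exact Or.inl h5
    · right
      intro z
      rw [hs z]
      exact hP3 g hg _
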