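import Pool.Agent.N254.SQ.Fin

/-!
# MP_b9fedf_ag, Q1 for all projective varieties is a question on smooth hypersurfaces

`Q1 n S` is the implication of Q1 (in the form of the frozen statement `S00411`) for the projective
variety `V(S)` in `P^n`: if all holomorphic maps from complex tori to `V(S)` are constant, then all
entire curves in `V(S)` are constant.

Let `X = V(S)` be any projective variety in `P^n`, `n ≥ 1` (any dimension and any singularities), given
by forms of degree at most `d`, `d ≥ 3`, and `v : P^n → P^N` the Veronese embedding of degree `d`. For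
all `D ≥ D₁(N)` there are quadratic forms `Q_t`, `t < N (2 N + 1)`, such that the hypersurface

`Y : ∑ t, Q_t(y) (y_0 + t y_1 + ⋯ + t^N y_N)^D = 0`

is smooth, contains `v(X)`, and every holomorphic map from a complex normed space (for example
`ℂ` or the universal covering of a torus) to `Y` is constant or is the composition of `v` and a
holomorphic map to `X`. So `Q1` holds for `X` if and only if it holds for `Y`, and `Q1` for all
projective varieties is equivalent to `Q1` for the smooth hypersurfaces of this form, with `D` in any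
given infinite set of exponents.

Proof. `X` is mapped to the zeros of quadratic forms `q_i` whose Jacobian matrix has rank `≥ N - n > n`
at all points. Take `Q_t = ∑ c_{t,i} q_i` with general coefficients. (1) A dimension count over the
generic point of the coefficients shows that `Y` is smooth, and that at a point with `2 N + 1` disjoint
vanishing subsums all `q_i` vanish. (2) Along a nonconstant entire curve the sum splits in minimal
vanishing subsums with at most `N` terms each, at least `2 N + 1` in number: in a minimal vanishing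
sum the ratio of any two terms is connected by circuits to quotients of Wronskian determinants
whose characteristic is at most `C T(r)`, with `C` independent of `D`, while the characteristic of one of
the ratios is at least `(D / N - 2) T(r)` if there are `N + 1` terms.
-/

set_option autoImplicit false

namespace Pool.Agent.Results.MP_b9fedf_ag.SmoothHypersurfacesSuffice

open MvPolynomial

/-- all holomorphic maps from complex tori to `V(S)` are constant (the hypothesis in `S00411`) -/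
def TorusConst (n : ℕ) (S : Set (MvPolynomial (Fin (n + 1)) ℂ)) : Prop :=
  ∀ (g : ℕ) (L : AddSubgroup (Fin g → ℂ)), DiscreteTopology L →
    Submodule.span ℝ (L : Set (Fin g → ℂ)) = ⊤ → ∀ F : (Fin g → ℂ) → (Fin (n + 1) → ℂ),
      Differentiable ℂ F → (∀ z, F z ≠ 0) → (∀ z, ∀ p ∈ S, eval (F z) p = 0) →
      (∀ z, ∀ l ∈ L, ∃ c : ℂ, F (z + l) = c • F z) → ∀ z w, ∃ c : ℂ, F w = c • F z

/-- all entire curves in `V(S)` are constant (the conclusion in `S00411`) -/
def CurveConst (n : ℕ) (S : Set (MvPolynomial (Fin (n + 1)) ℂ)) : Prop :=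
  ∀ f : ℂ → (Fin (n + 1) → ℂ), Differentiable ℂ f → (∀ z, f z ≠ 0) →
    (∀ z, ∀ p ∈ S, eval (f z) p = 0) → ∀ z w, ∃ c : ℂ, f w = c • f z

/-- the implication of Q1 for `V(S)` -/
def Q1 (n : ℕ) (S : Set (MvPolynomial (Fin (n + 1)) ℂ)) : Prop := TorusConst n S → CurveConst n S

/-- the partial derivatives have no common zeros in `P^N` -/
def Smooth {N : ℕ} (A : MvPolynomial (Fin (N + 1)) ℂ) : Prop :=
  ∀ y : Fin (N + 1) → ℂ, y ≠ 0 → ∃ j, eval y (pderiv j A) ≠ 0

/-- the form `∑ t, Q_t(y) (y_0 + t y_1 + ⋯ + t ^ N y_N) ^ D` -/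
noncomputable def powerForm {N M : ℕ} (D : ℕ) (Q : Fin M → MvPolynomial (Fin (N + 1)) ℂ) :
    MvPolynomial (Fin (N + 1)) ℂ :=
  ∑ t : Fin M, Q t * (∑ j : Fin (N + 1), C (((t : ℕ) : ℂ) ^ (j : ℕ)) * X j) ^ D

/-- `m` enumerates the exponent vectors of the monomials of degree `d` in `n + 1` variables -/
structure Monomials (n N d : ℕ) (m : Fin (N + 1) → Fin (n + 1) → ℕ) : Prop where
  deg : ∀ a, ∑ j, m a j = d
  inj : Function.Injective m
  surj : ∀ α : Fin (n + 1) → ℕ, ∑ j, α j = d → ∃ a, m a = α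

/-- the Veronese map -/
def veronese {n N : ℕ} (m : Fin (N + 1) → Fin (n + 1) → ℕ) (x : Fin (n + 1) → ℂ) :
    Fin (N + 1) → ℂ := fun a => ∏ j, x j ^ m a j

section proof

open Pool.Agent.N254.SQ (Mon ver geo maps leaves reduce ver_prop ver_smul ver_ne_zero ver_diff
  powerSum lin)

theorem form_eq {N M : ℕ} (D : ℕ) (Q : Fin M → MvPolynomial (Fin (N + 1)) ℂ) :
    powerForm D Q = powerSum D Q := rfl

theorem ver_eq {n N : ℕ} (m : Fin (N + 1) → Fin (n + 1) → ℕ) (x : Fin (n + 1) → ℂ) :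
    veronese m x = ver m x := rfl

variable {n N d : ℕ} {m : Fin (N + 1) → Fin (n + 1) → ℕ}
  {S : Set (MvPolynomial (Fin (n + 1)) ℂ)} {A : MvPolynomial (Fin (N + 1)) ℂ}

/-- the factorisation of the holomorphic maps -/
def Factors (m : Fin (N + 1) → Fin (n + 1) → ℕ) (S : Set (MvPolynomial (Fin (n + 1)) ℂ))
    (A : MvPolynomial (Fin (N + 1)) ℂ) : Prop :=
  ∀ (E : Type) [NormedAddCommGroup E] [NormedSpace ℂ E] (G : E → Fin (N + 1) → ℂ),
    Differentiable ℂ G → (∀ z, G z ≠ 0) → (∀ z, eval (G z) A = 0) →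
    (∀ z w, ∃ c : ℂ, G w = c • G z) ∨
      ∃ F : E → Fin (n + 1) → ℂ, Differentiable ℂ F ∧ (∀ z, F z ≠ 0) ∧
        (∀ z, ∀ p ∈ S, eval (F z) p = 0) ∧ ∀ z, G z = veronese m (F z)

theorem prop_up (hm : Mon n N d m) {x y : Fin (n + 1) → ℂ} {c : ℂ} (h : y = c • x) :
    ∃ c' : ℂ, veronese m y = c' • veronese m x :=
  ⟨c ^ d, by rw [h, ver_eq, ver_eq, ver_smul hm]⟩

theorem prop_down (hm : Mon n N d m) (hd : 1 ≤ d) {x y : Fin (n + 1) → ℂ} (hy : y ≠ 0) {c : ℂ}
    (h : veronese m y = c • veronese m x) : ∃ c' : ℂ, y = c' • x := ver_prop hm hd hy h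

theorem torus_iff (hm : Mon n N d m) (hd : 1 ≤ d)
    (hSA : ∀ x, (∀ p ∈ S, eval x p = 0) → eval (veronese m x) A = 0) (hF : Factors m S A) :
    TorusConst N {A} ↔ TorusConst n S := by
  constructor
  · intro h g L hL hL2 F hF1 hF0 hFS hFL z w
    obtain ⟨c, hc⟩ := h g L hL hL2 (fun z => veronese m (F z)) (ver_diff hF1)
      (fun z => ver_ne_zero hm hd (hF0 z)) (fun z p hp => by
        rw [Set.mem_singleton_iff] at hp
        rw [hp]
        exact hSA _ (hFS z)) (fun z l hl => by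
        obtain ⟨c, hc⟩ := hFL z l hl
        exact prop_up hm hc) z w
    exact prop_down hm hd (hF0 w) hc
  · intro h g L hL hL2 G hG1 hG0 hGA hGL z w
    rcases hF (Fin g → ℂ) G hG1 hG0 (fun z => hGA z A rfl) with hc | ⟨F, hF1, hF0, hFS, hGF⟩
    · exact hc z w
    · obtain ⟨c, hc⟩ := h g L hL hL2 F hF1 hF0 hFS (fun z l hl => by
        obtain ⟨c, hc⟩ := hGL z l hl
        rw [hGF, hGF] at hc
        exact prop_down hm hd (hF0 _) hc) z w
      obtain ⟨c', hc'⟩ := prop_up hm hc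
      exact ⟨c', by rw [hGF, hGF, hc']⟩

theorem curve_iff (hm : Mon n N d m) (hd : 1 ≤ d)
    (hSA : ∀ x, (∀ p ∈ S, eval x p = 0) → eval (veronese m x) A = 0) (hF : Factors m S A) :
    CurveConst N {A} ↔ CurveConst n S := by
  constructor
  · intro h F hF1 hF0 hFS z w
    obtain ⟨c, hc⟩ := h (fun z => veronese m (F z)) (ver_diff hF1)
      (fun z => ver_ne_zero hm hd (hF0 z)) (fun z p hp => by
        rw [Set.mem_singleton_iff] at hp
        rw [hp]
        exact hSA _ (hFS z)) z w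
    exact prop_down hm hd (hF0 w) hc
  · intro h G hG1 hG0 hGA z w
    rcases hF ℂ G hG1 hG0 (fun z => hGA z A rfl) with hc | ⟨F, hF1, hF0, hFS, hGF⟩
    · exact hc z w
    · obtain ⟨c, hc⟩ := h F hF1 hF0 hFS z w
      obtain ⟨c', hc'⟩ := prop_up hm hc
      exact ⟨c', by rw [hGF, hGF, hc']⟩

theorem main_part : ∃ D₁ : ℕ → ℕ,
    ∀ n d : ℕ, 1 ≤ n → 3 ≤ d → ∃ (N : ℕ) (m : Fin (N + 1) → Fin (n + 1) → ℕ),
      Mon n N d m ∧ ∀ D, D₁ N ≤ D → ∀ S : Set (MvPolynomial (Fin (n + 1)) ℂ),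
        (∀ p ∈ S, ∃ e ≤ d, p.IsHomogeneous e) →
        ∃ Q : Fin (N * (2 * N + 1)) → MvPolynomial (Fin (N + 1)) ℂ,
          (∀ t, (Q t).IsHomogeneous 2) ∧ Smooth (powerForm D Q) ∧
          (∀ x, (∀ p ∈ S, eval x p = 0) → eval (veronese m x) (powerForm D Q) = 0) ∧
          Factors m S (powerForm D Q) := by
  obtain ⟨D₁, H⟩ := geo leaves
  refine ⟨D₁, fun n d hn hd => ?_⟩
  obtain ⟨N, m, hm, -, H2⟩ := H n d hn hd
  refine ⟨N, m, hm, fun D hD S hS => ?_⟩
  obtain ⟨T, hT, hTS⟩ := reduce S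
  have hT2 : ∀ p : T, ∃ e ≤ d, (p : MvPolynomial (Fin (n + 1)) ℂ).IsHomogeneous e :=
    fun p => hS _ (hT p.2)
  choose e he hp using hT2
  obtain ⟨Q, hQ, hsm, hv, hc⟩ := H2 D hD ℂ T (fun p => (p : MvPolynomial (Fin (n + 1)) ℂ)) e hp he
  have hS2 : ∀ x : Fin (n + 1) → ℂ, (∀ p : T, eval x (p : MvPolynomial (Fin (n + 1)) ℂ) = 0) →
      ∀ p ∈ S, eval x p = 0 := by
    intro x hx p hpS
    have h1 := hTS ℂ (RingHom.id ℂ) x (fun p hp => by
      rw [map_id]
      exact hx ⟨p, hp⟩) p hpS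
    rwa [map_id] at h1
  refine ⟨Q, hQ, ?_, ?_, ?_⟩
  · intro y hy
    obtain ⟨j, hj⟩ := hsm ℂ (RingHom.id ℂ) y hy
    rw [map_id] at hj
    exact ⟨j, hj⟩
  · intro x hx
    have h1 := hv ℂ (RingHom.id ℂ) x (fun p => by
      rw [map_id]
      exact hx _ (hT p.2))
    rw [map_id] at h1
    exact h1
  · intro E _ _ G hG hG0 hGA
    by_cases hcon : ∀ z w, ∃ c : ℂ, G w = c • G z
    · exact Or.inl hcon
    · right
      obtain ⟨F, h1, h2, h3, h4⟩ := maps leaves.lift hm (by omega)
        (fun p : T => (p : MvPolynomial (Fin (n + 1)) ℂ)) e hp (powerSum D Q) (by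
          intro f hf h0 hfA hnc z
          obtain ⟨x, hx, hxT, hfx⟩ := hc (RingHom.id ℂ) f hf h0 (fun z => by
            rw [map_id]
            exact hfA z) hnc z
          refine ⟨x, hx, fun p => ?_, hfx⟩
          have := hxT p
          rwa [map_id] at this) G hG hG0 hGA hcon
      exact ⟨F, h1, h2, fun z => hS2 _ (h3 z), h4⟩

end proof

theorem result : ∃ D₁ : ℕ → ℕ,
    (∀ n d : ℕ, 1 ≤ n → 3 ≤ d → ∃ (N : ℕ) (m : Fin (N + 1) → Fin (n + 1) → ℕ),
      Monomials n N d m ∧ ∀ D, D₁ N ≤ D → ∀ S : Set (MvPolynomial (Fin (n + 1)) ℂ),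
        (∀ p ∈ S, ∃ e ≤ d, p.IsHomogeneous e) →
        ∃ Q : Fin (N * (2 * N + 1)) → MvPolynomial (Fin (N + 1)) ℂ,
          (∀ t, (Q t).IsHomogeneous 2) ∧ Smooth (powerForm D Q) ∧
          (∀ x, (∀ p ∈ S, eval x p = 0) → eval (veronese m x) (powerForm D Q) = 0) ∧
          (∀ (E : Type) [NormedAddCommGroup E] [NormedSpace ℂ E] (G : E → Fin (N + 1) → ℂ),
            Differentiable ℂ G → (∀ z, G z ≠ 0) → (∀ z, eval (G z) (powerForm D Q) = 0) →
            (∀ z w, ∃ c : ℂ, G w = c • G z) ∨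
              ∃ F : E → Fin (n + 1) → ℂ, Differentiable ℂ F ∧ (∀ z, F z ≠ 0) ∧
                (∀ z, ∀ p ∈ S, eval (F z) p = 0) ∧ ∀ z, G z = veronese m (F z)) ∧
          (TorusConst N {powerForm D Q} ↔ TorusConst n S) ∧
          (CurveConst N {powerForm D Q} ↔ CurveConst n S)) ∧
    ∀ E : Set ℕ, E.Infinite →
      ((∀ (n : ℕ) (S : Set (MvPolynomial (Fin (n + 1)) ℂ)), (∀ p ∈ S, ∃ e, p.IsHomogeneous e) →
          Q1 n S) ↔
        ∀ (N D : ℕ) (Q : Fin (N * (2 * N + 1)) → MvPolynomial (Fin (N + 1)) ℂ), D ∈ E →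
          D₁ N ≤ D → (∀ t, (Q t).IsHomogeneous 2) → Smooth (powerForm D Q) →
          Q1 N {powerForm D Q}) := by
  obtain ⟨D₁, H⟩ := main_part
  refine ⟨D₁, ?_, ?_⟩
  · intro n d hn hd
    obtain ⟨N, m, hm, H2⟩ := H n d hn hd
    refine ⟨N, m, ⟨hm.deg, hm.inj, hm.surj⟩, fun D hD S hS => ?_⟩
    obtain ⟨Q, hQ, hsm, hv, hf⟩ := H2 D hD S hS
    exact ⟨Q, hQ, hsm, hv, hf, torus_iff hm (by omega) hv hf, curve_iff hm (by omega) hv hf⟩
  · intro E hE
    constructor
    · intro h N D Q _ _ hQ _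
      apply h N {powerForm D Q}
      intro p hp
      rw [Set.mem_singleton_iff] at hp
      rw [hp]
      refine ⟨2 + D, IsHomogeneous.sum _ _ _ fun t _ => ?_⟩
      have h1 := (hQ t).mul ((Pool.Agent.N254.SQ.lin_hom ℂ N (t : ℕ)).pow D)
      rw [one_mul] at h1
      exact h1
    · intro h n S hS htor
      rcases Nat.eq_zero_or_pos n with hn | hn
      · subst hn
        intro f _ hf0 _ z w
        have h1 : ∀ z, f z 0 ≠ 0 := by
          intro z h2
          apply hf0 z
          funext j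
          rw [show j = 0 from Fin.ext (by omega)]
          exact h2
        refine ⟨f w 0 / f z 0, funext fun j => ?_⟩
        rw [show j = 0 from Fin.ext (by omega), Pi.smul_apply, smul_eq_mul, div_mul_cancel₀ _ (h1 z)]
      · obtain ⟨T, hT, hTS⟩ := Pool.Agent.N254.SQ.reduce S
        have hT2 : ∀ p ∈ T, ∃ e, p.IsHomogeneous e := fun p hp => hS p (hT hp)
        obtain ⟨d, hd3, hd⟩ : ∃ d, 3 ≤ d ∧ ∀ p ∈ T, ∃ e ≤ d, p.IsHomogeneous e := by
          choose! e he using hT2
          refine ⟨max 3 (T.sup e), le_max_left _ _, fun p hp => ⟨e p, ?_, he p hp⟩⟩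
          exact le_trans (Finset.le_sup (f := e) hp) (le_max_right _ _)
        obtain ⟨N, m, hm, H2⟩ := H n d hn hd3
        obtain ⟨D, hD, hD2⟩ := hE.exists_gt (D₁ N)
        obtain ⟨Q, hQ, hsm, hv, hf⟩ := H2 D hD2.le (T : Set (MvPolynomial (Fin (n + 1)) ℂ))
          (fun p hp => hd p hp)
        have hTS2 : ∀ x : Fin (n + 1) → ℂ, (∀ p ∈ (T : Set (MvPolynomial (Fin (n + 1)) ℂ)),
            eval x p = 0) → ∀ p ∈ S, eval x p = 0 := by
          intro x hx p hp
          have h1 := hTS ℂ (RingHom.id ℂ) x (fun p hp => by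
            rw [map_id]
            exact hx p hp) p hp
          rwa [map_id] at h1
        have htor2 : TorusConst n (T : Set (MvPolynomial (Fin (n + 1)) ℂ)) := by
          intro g L hL hL2 F hF hF0 hFT hFL
          exact htor g L hL hL2 F hF hF0 (fun z => hTS2 _ (hFT z)) hFL
        have hcur := (curve_iff hm (by omega) hv hf).1 (h N D Q hD hD2.le hQ hsm
          ((torus_iff hm (by omega) hv hf).2 htor2))
        intro f hf1 hf0 hfS
        exact hcur f hf1 hf0 fun z p hp => hfS z p (hT hp)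

end Pool.Agent.Results.MP_b9fedf_ag.SmoothHypersurfacesSuffice
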