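import Mathlib
import Pool.Agent.N626.Sg

/-!
# Zariski-dense curves given by linear differential equations, and maps from tori

Let `X` be a complex projective variety, and let `X°` be the complement of the hypersurface `Q = 0`
in `X` (`Q = 1` is allowed; then `X° = X`). Let `f` be a Zariski-dense entire curve in `X°` whose
homogeneous coordinates satisfy linear differential equations with polynomial coefficients. We prove
that `X°` is swept out by images of tori of codimension at most one: for a dense set of complex
numbers `z`, there is a map from a torus to `X°`, whose image contains the point `f(z)` and has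
dimension at least `dim X - 1`. More generally, if the coefficients belong to a differential ring `B`
of holomorphic functions on a domain, of transcendence degree at most `b`, then there are such maps
with images of dimension at least `dim X - b`.
-/

set_option autoImplicit false

namespace Pool.Agent.Results.MP_b9fedf_ag.SweptByTori

open MvPolynomial
open Pool.Agent.TH143 (DiffRing LinOver PolODE)
open Pool.Agent.N626

variable {N : ℕ}

/-- `p` is the ideal of a variety in the projective space: a prime ideal, generated by forms, which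
does not contain all the variables. -/
structure IsVariety (p : Ideal (MvPolynomial (Fin (N + 1)) ℂ)) : Prop where
  prime : p.IsPrime
  hom : ∀ G ∈ p, ∀ D, homogeneousComponent D G ∈ p
  ne : ∃ l, (X l : MvPolynomial (Fin (N + 1)) ℂ) ∉ p

/-- The variety with the ideal `p` has dimension at least `d`: there are `d + 1` homogeneous
coordinates such that no nonzero form in them vanishes on the variety. -/
def DimGe (p : Ideal (MvPolynomial (Fin (N + 1)) ℂ)) (d : ℕ) : Prop :=
  ∃ a : Fin (d + 1) → Fin (N + 1), ∀ (D : ℕ) (G : MvPolynomial (Fin (d + 1)) ℂ),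
    G.IsHomogeneous D → rename a G ∈ p → G = 0

/-- There are polynomials `w_j` in `r` variables, for some `r`, which give a map from the torus of
dimension `r` to the complement of `Q = 0` in the variety with the ideal `p`: the points
`(w_0(t) : … : w_N(t))` are in the variety, and `Q (w(t)) ≠ 0` for every `t` with nonzero
coordinates. The map sends the unit element to the point `x`, and the dimension of its image is at
least `e`: there are `e + 1` homogeneous coordinates such that no nonzero form in them vanishes on the
image. (If `Q` is a constant, then the map is only defined where `w(t) ≠ 0`.) -/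
def TorusThrough (p : Ideal (MvPolynomial (Fin (N + 1)) ℂ)) (Q : MvPolynomial (Fin (N + 1)) ℂ)
    (x : Fin (N + 1) → ℂ) (e : ℕ) : Prop :=
  ∃ (r : ℕ) (w : Fin (N + 1) → MvPolynomial (Fin r) ℂ), (∀ j, eval (fun _ => 1) (w j) = x j) ∧
    (∀ G ∈ p, aeval w G = 0) ∧ (∀ t : Fin r → ℂ, (∀ k, t k ≠ 0) → eval t (aeval w Q) ≠ 0) ∧
    ∃ a : Fin (e + 1) → Fin (N + 1), ∀ (D : ℕ) (G : MvPolynomial (Fin (e + 1)) ℂ),
      G.IsHomogeneous D → aeval (fun j => w (a j)) G = 0 → G = 0

/-- `f` is an entire curve in the complement of `Q = 0` in the variety with the ideal `p`, given by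
homogeneous coordinates which satisfy nontrivial linear differential equations with polynomial
coefficients, and it is Zariski-dense in the variety. (If `Q` is a constant, then the coordinates may
have common zeros; `f` extends to them.) -/
structure EntireCurve (p : Ideal (MvPolynomial (Fin (N + 1)) ℂ)) (Q : MvPolynomial (Fin (N + 1)) ℂ)
    (f : ℂ → Fin (N + 1) → ℂ) : Prop where
  diff : ∀ j, Differentiable ℂ fun z => f z j
  on : ∀ G ∈ p, ∀ z, eval (f z) G = 0
  off : ∀ z, eval (f z) Q ≠ 0
  ode : ∀ j, PolODE fun z => f z j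
  dense : ∀ G : MvPolynomial (Fin (N + 1)) ℂ, (∃ e, G.IsHomogeneous e) →
    (∀ z, eval (f z) G = 0) → G ∈ p

/-- `B` is a ring of holomorphic functions on the connected open set `Ω`, closed under
differentiation, any `b + 1` elements of which satisfy a nontrivial polynomial relation with constant
coefficients; `f` is a holomorphic curve on `Ω` in the variety with the ideal `p`, Zariski-dense in
it, given by homogeneous coordinates which satisfy nontrivial linear differential equations with
coefficients in `B`; the curve is not contained in `Q = 0`, and the logarithmic derivative of `Q (f)`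
is a quotient of elements of `B` (this condition is empty if `Q` is a constant). -/
structure LocalCurve (Ω : Set ℂ) (B : Subalgebra ℂ (ℂ → ℂ)) (b : ℕ)
    (p : Ideal (MvPolynomial (Fin (N + 1)) ℂ)) (Q : MvPolynomial (Fin (N + 1)) ℂ)
    (f : ℂ → Fin (N + 1) → ℂ) : Prop where
  isOpen : IsOpen Ω
  conn : IsPreconnected Ω
  ring : DiffRing Ω B
  trdeg : TrdegLe Ω B b
  an : ∀ j, AnalyticOnNhd ℂ (fun z => f z j) Ω
  on : ∀ G ∈ p, ∀ z ∈ Ω, eval (f z) G = 0
  off : ∃ z ∈ Ω, eval (f z) Q ≠ 0
  ode : ∀ j, LinOver Ω B fun z => f z j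
  bd : ∃ b ∈ B, ∃ c ∈ B, (∃ z ∈ Ω, b z ≠ 0) ∧
    ∀ z ∈ Ω, b z * deriv (fun w => eval (f w) Q) z = c z * eval (f z) Q
  dense : ∀ G : MvPolynomial (Fin (N + 1)) ℂ, (∃ e, G.IsHomogeneous e) →
    (∀ z ∈ Ω, eval (f z) G = 0) → G ∈ p

/-- Let `X` be the projective variety with the ideal `p`, of dimension at least `d`, and let `X°` be
the complement of `Q = 0` in `X`.

(1) Let `f` be a Zariski-dense curve in `X`, not contained in `Q = 0`, given by linear differential
equations over a differential ring `B` of holomorphic functions on a domain `Ω`, of transcendence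
degree at most `b`, and suppose that the logarithmic derivative of `Q (f)` is a quotient of elements
of `B`. Then for a dense set of `z` in `Ω` there is a map from a torus to `X°`, whose image contains
the point `f(z)` and has dimension at least `d - b`.

(2) Let `f` be a Zariski-dense entire curve in `X°` given by linear differential equations with
polynomial coefficients. Then for a dense set of complex numbers `z` there is a map from a torus to
`X°`, whose image contains the point `f(z)` and has dimension at least `d - 1`. -/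
theorem result (p : Ideal (MvPolynomial (Fin (N + 1)) ℂ)) (hp : IsVariety p)
    (Q : MvPolynomial (Fin (N + 1)) ℂ) {q : ℕ} (hQ : Q.IsHomogeneous q) {d : ℕ} (hd : DimGe p d) :
    (∀ (Ω : Set ℂ) (B : Subalgebra ℂ (ℂ → ℂ)) (b : ℕ) (f : ℂ → Fin (N + 1) → ℂ),
      LocalCurve Ω B b p Q f → ∀ V ⊆ Ω, IsOpen V → V.Nonempty →
        ∃ z ∈ V, f z ≠ 0 ∧ ∃ e, d ≤ e + b ∧ TorusThrough p Q (f z) e) ∧
    (∀ f : ℂ → Fin (N + 1) → ℂ, EntireCurve p Q f → ∀ V : Set ℂ, IsOpen V → V.Nonempty →
      ∃ z ∈ V, f z ≠ 0 ∧ ∃ e, d ≤ e + 1 ∧ TorusThrough p Q (f z) e) := by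
  obtain ⟨a, ha⟩ := hd
  have h1 : ∀ (Ω : Set ℂ) (B : Subalgebra ℂ (ℂ → ℂ)) (b : ℕ) (f : ℂ → Fin (N + 1) → ℂ),
      LocalCurve Ω B b p Q f → ∀ V ⊆ Ω, IsOpen V → V.Nonempty →
        ∃ z ∈ V, f z ≠ 0 ∧ ∃ e, d ≤ e + b ∧ TorusThrough p Q (f z) e := by
    intro Ω B b f hf V hV hVo hVn
    obtain ⟨u, hu, c, hc, hu0, hbd⟩ := hf.bd
    obtain ⟨z, hz, hfz, r, w, e1, e2, e3, e, κ, hde, e4⟩ := sweep_var hf.isOpen hf.conn hf.ring
      hf.trdeg f hf.an hf.ode hf.on hf.dense ha hQ hf.off hu hc hu0 hbd hV hVo hVn
    exact ⟨z, hz, hfz, e, hde, r, w, e1, fun G hG => on_comp hp.hom e2 hG, e3, κ, e4⟩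
  refine ⟨h1, fun f hf V hVo hVn => ?_⟩
  obtain ⟨P, hP⟩ := log_pol hf.diff hf.ode hf.off
  refine h1 Set.univ polB 1 f ⟨isOpen_univ, isPreconnected_univ, polB_diff, trdeg_pol _,
    fun j z _ => (hf.diff j).analyticAt z, fun G hG z _ => hf.on G hG z,
    ⟨0, Set.mem_univ _, hf.off 0⟩, fun j => PolODE.linOver (hf.ode j),
    ⟨fun _ => 1, ⟨1, fun _ => by rw [Polynomial.eval_one]⟩, fun z => P.eval z, ⟨P, fun _ => rfl⟩,
      ⟨0, Set.mem_univ _, one_ne_zero⟩, fun z _ => by rw [one_mul, hP z]⟩,
    fun G hG h0 => hf.dense G hG fun z => h0 z (Set.mem_univ z)⟩ V (Set.subset_univ _) hVo hVn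

end Pool.Agent.Results.MP_b9fedf_ag.SweptByTori
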